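import Pool.Agent.helper83.FI4B.Spec

set_option autoImplicit false

namespace Pool.Agent.FI4B

theorem BSM : BSM_stmt := by
  classical
  intro p _ J _ a b hJ
  have h1 : ∀ t : ZMod p, ∏ j, (a j + b j * t) =
      ∑ s ∈ (Finset.univ : Finset J).powerset, ((∏ j ∈ s, a j) * ∏ j ∈ Finset.univ \ s, b j) *
        t ^ (Finset.univ \ s).card := by
    intro t
    rw [Finset.prod_add]
    refine Finset.sum_congr rfl fun s _ => ?_
    rw [Finset.prod_mul_distrib, Finset.prod_const, mul_assoc]
  rw [Finset.sum_congr rfl fun t _ => h1 t, Finset.sum_comm]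
  refine Finset.sum_eq_zero fun s _ => ?_
  rw [← Finset.mul_sum, FiniteField.sum_pow_lt_card_sub_one, mul_zero]
  rw [ZMod.card]
  have h2 : (Finset.univ \ s).card ≤ Fintype.card J := Finset.card_le_univ _
  omega

end Pool.Agent.FI4B
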